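import Pool.Agent.MP_26cd3b_lc.H27.CellDefs

set_option autoImplicit false

namespace Pool.Agent.MP_26cd3b_lc.H80

open Pool.Agent.MP_26cd3b_lc.H27

def L9 : List Lb := [(0, 0), (0, 1), (0, 2), (2, 0), (2, 1), (2, 2), (2, 3), (2, 4), (2, 5)]

theorem mem9 {a : Lb} : a ∈ lab0 6 ↔ a ∈ L9 := by
  obtain ⟨p, q⟩ := a
  simp only [mem_lab0, L9, List.mem_cons, Prod.mk.injEq, List.not_mem_nil, or_false]
  omega

theorem lin_apply (φ : (Fin 5 → ℝ) →ₗ[ℝ] ℝ) : ∃ A B C D E : ℝ, ∀ a b c d e : ℝ,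
    φ ![a, b, c, d, e] = a * A + b * B + c * C + d * D + e * E := by
  refine ⟨φ ![1, 0, 0, 0, 0], φ ![0, 1, 0, 0, 0], φ ![0, 0, 1, 0, 0], φ ![0, 0, 0, 1, 0],
    φ ![0, 0, 0, 0, 1], fun a b c d e => ?_⟩
  simp only [← smul_eq_mul, ← map_smul, ← map_add]
  congr 1
  ext i
  fin_cases i <;> simp

variable {y : Lb → Fin 5 → ℝ}

theorem facet (A B C D E : ℝ) (Z : List Lb)
    (h : ∀ a ∈ L9, if a ∈ Z then y a 0 * A + y a 1 * B + y a 2 * C + y a 3 * D + y a 4 * E = 0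
      else 0 < y a 0 * A + y a 1 * B + y a 2 * C + y a 3 * D + y a 4 * E) :
    Face (lab0 6) y {a | a ∈ Z} := by
  refine ⟨Fintype.linearCombination ℝ ![A, B, C, D, E], fun a ha => ?_⟩
  have e : Fintype.linearCombination ℝ ![A, B, C, D, E] (y a) =
      y a 0 * A + y a 1 * B + y a 2 * C + y a 3 * D + y a 4 * E := by
    simp [Fintype.linearCombination_apply, Fin.sum_univ_five]
  have := h a (mem9.1 ha)
  rw [e]
  split_ifs at this with g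
  · simp [this, g]
  · simp [this.le, this.ne', g]

theorem inter_all (F : List (List Lb)) (h : ∀ Z ∈ F, Face (lab0 6) y {a | a ∈ Z}) (p q : Lb) :
    Face (lab0 6) y {a | ∀ Z ∈ F, p ∈ Z → q ∈ Z → a ∈ Z} := by
  induction F with
  | nil => exact Face.univ.congr (by simp)
  | cons Z F ih =>
    have h1 := ih fun W hW => h W (List.mem_cons_of_mem _ hW)
    by_cases g : p ∈ Z ∧ q ∈ Z
    · exact ((h Z List.mem_cons_self).inter h1).congr (by simp [g])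
    · refine h1.congr fun a _ => ?_
      simp only [Set.mem_ofPred_eq, List.forall_mem_cons]
      exact ⟨fun k => ⟨fun k1 k2 => absurd ⟨k1, k2⟩ g, k⟩, fun k => k.2⟩

theorem cell (F : List (List Lb)) (N : List (Lb × Lb)) {es ch : ℕ → ℕ → Prop}
    (h : ∀ Z ∈ F, Face (lab0 6) y {a | a ∈ Z}) (hN : ∀ e ∈ N, ¬ Ed (lab0 6) y e.1 e.2)
    (h1 : ∀ p ∈ L9, ∀ q ∈ L9, (p, q) ∈ N ∨ (q, p) ∈ N ∨
      ∀ a ∈ L9, (∀ Z ∈ F, p ∈ Z → q ∈ Z → a ∈ Z) ↔ a = p ∨ a = q)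
    (h0 : ∀ p ∈ L9, (p, p) ∉ N)
    (h2 : ∀ p ∈ L9, ∀ q ∈ L9, adj0 6 es ch p q ↔ p ≠ q ∧ (p, q) ∉ N ∧ (q, p) ∉ N) :
    Vx (lab0 6) y ∧ ∀ a b, adj0 6 es ch a b ↔ Ed (lab0 6) y a b := by
  have key : ∀ p ∈ L9, ∀ q ∈ L9, (p, q) ∉ N → (q, p) ∉ N → Face (lab0 6) y {p, q} := by
    intro p hp q hq g1 g2
    refine (inter_all F h p q).congr fun a ha => ?_
    simpa using ((h1 p hp q hq).resolve_left g1).resolve_left g2 a (mem9.1 ha)
  refine ⟨fun p hp => ?_, fun p q => ⟨fun g => ?_, fun g => ?_⟩⟩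
  · simpa using key p (mem9.1 hp) p (mem9.1 hp) (h0 p (mem9.1 hp)) (h0 p (mem9.1 hp))
  · obtain ⟨k1, k2, k3⟩ := (h2 p (mem9.1 g.1) q (mem9.1 g.2.1)).1 g
    exact ⟨g.1, g.2.1, k1, key p (mem9.1 g.1) q (mem9.1 g.2.1) k2 k3⟩
  · exact (h2 p (mem9.1 g.1) q (mem9.1 g.2.1)).2
      ⟨g.2.2.1, fun k => hN _ k g, fun k => hN _ k g.symm⟩

theorem non_edge {p q : Lb} (h : Ed (lab0 6) y p q) : ∃ φ : (Fin 5 → ℝ) →ₗ[ℝ] ℝ,
    ∀ a ∈ L9, if a = p ∨ a = q then φ (y a) = 0 else 0 < φ (y a) := by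
  obtain ⟨φ, -, h1, h2, h3⟩ := h.fn
  refine ⟨φ, fun a ha => ?_⟩
  split_ifs with g
  · rcases g with rfl | rfl <;> assumption
  · exact h3 a (mem9.2 ha) (fun e => g (Or.inl e)) fun e => g (Or.inr e)

set_option synthInstance.maxSize 2000 in
theorem gadget_cell {t1 t2 t3 t4 : ℝ} (h1 : 0 < t1) (h2 : t1 < t2) (h3 : t2 < t3) (h4 : t3 < t4)
    (hE : t1 * (t4 - t2) = t2 * (t4 - t3)) {y : Lb → Fin 5 → ℝ} (hc : Corners y)
    (y0 : y (2, 0) = ![1, 0, 0, 0, 1]) (y1 : y (2, 1) = ![1, t1, t1 / t2, 0, 0])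
    (y2 : y (2, 2) = ![1, t2, 1, 0, 1]) (y3 : y (2, 3) = ![1, t3, t1 / t2, t3 - t2, 0])
    (y4 : y (2, 4) = ![1, t4, 0, t4 - t2, 1]) (y5 : y (2, 5) = ![0, 1, 0, 2, 0]) :
    Vx (lab0 6) y ∧ ∀ a b, adj0 6 esG chG a b ↔ Ed (lab0 6) y a b := by
  obtain ⟨c0, c1, c2⟩ := hc
  have k0 : 0 < t2 := h1.trans h2
  have l0 : 0 < t1 / t2 := div_pos h1 k0
  have l1 : t1 / t2 < 1 := (div_lt_one k0).2 h2
  have l2 : t1 / t2 * t2 = t1 := div_mul_cancel₀ _ k0.ne'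
  have l3 : t1 / t2 * (t4 - t2) = t4 - t3 := by field_simp; linarith
  generalize t1 / t2 = l at *
  refine cell [[(0, 0), (0, 1), (0, 2), (2, 0)], [(0, 0), (0, 1), (0, 2), (2, 5)],
      [(0, 0), (0, 1), (2, 0), (2, 1)], [(0, 0), (0, 1), (2, 1), (2, 3), (2, 5)],
      [(0, 0), (0, 2), (2, 0), (2, 1), (2, 2)], [(0, 0), (0, 2), (2, 2), (2, 3), (2, 4)],
      [(0, 0), (0, 2), (2, 4), (2, 5)], [(0, 0), (2, 1), (2, 2), (2, 3)],
      [(0, 0), (2, 3), (2, 4), (2, 5)], [(0, 1), (0, 2), (2, 0), (2, 4), (2, 5)],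
      [(0, 1), (2, 0), (2, 1), (2, 3), (2, 4), (2, 5)],
      [(0, 2), (2, 0), (2, 1), (2, 2), (2, 3), (2, 4)]]
    [((2, 0), (2, 2)), ((0, 2), (2, 1)), ((2, 2), (2, 4)), ((0, 2), (2, 3)), ((2, 0), (2, 5)),
      ((0, 1), (2, 4)), ((2, 1), (2, 5)), ((0, 1), (2, 3)), ((2, 0), (2, 3)), ((2, 1), (2, 4)),
      ((2, 2), (2, 5)), ((0, 1), (2, 2))] ?_ ?_ (by decide +kernel) (by decide +kernel)
    (by simp only [adj0, esG, chG, chA, mem9]; decide +kernel)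
  · simp only [List.forall_mem_cons]
    refine ⟨facet 0 1 0 0 0 _ ?_, facet 1 0 0 0 0 _ ?_, facet (-t1) 1 0 0 t1 _ ?_,
      facet 0 0 0 0 1 _ ?_, facet 0 0 0 1 0 _ ?_, facet t2 (-1) 0 1 0 _ ?_,
      facet (t2 + t4) (-2) 0 1 0 _ ?_,
      facet (t1 * (t3 - t2)) (-(t3 - t2)) 0 (t3 - t1) ((t2 - t1) * (t3 - t2)) _ ?_,
      facet (t3 + t2) (-2) 0 1 (t4 - t3) _ ?_, facet 0 0 1 0 0 _ ?_, facet (-l) 0 1 0 l _ ?_,
      facet 0 (-(t4 - t2)) (t2 * (t4 - t2)) t4 0 _ ?_, by simp⟩ <;>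
    simp [L9, c0, c1, c2, y0, y1, y2, y3, y4, y5] <;> (repeat' apply And.intro) <;>
    first | linarith | nlinarith
  · simp only [List.forall_mem_cons]
    refine ⟨fun g => ?_, fun g => ?_, fun g => ?_, fun g => ?_, fun g => ?_, fun g => ?_,
      fun g => ?_, fun g => ?_, fun g => ?_, fun g => ?_, fun g => ?_, fun g => ?_, by simp⟩ <;>
    obtain ⟨φ, g⟩ := non_edge g <;> obtain ⟨A, B, C, D, E, hφ⟩ := lin_apply φ <;>
    simp [L9, c0, c1, c2, y0, y1, y2, y3, y4, y5, hφ] at g <;>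
    obtain ⟨e0, e1, e2, p0, p1, p2, p3, p4, p5⟩ := g
    all_goals
      have r1 : (1 - l) * (A + E) + l * (A + t2 * B + C + E) = A + t1 * B + l * C + E := by
        linear_combination B * l2
      have r2 : l * (A + t2 * B + C + E) + (1 - l) * (A + t4 * B + (t4 - t2) * D + E) =
          A + t3 * B + l * C + (t3 - t2) * D + E := by linear_combination (-B - D) * l3
      have l4 : 0 < 1 - l := by linarith
    · rw [p0, p2] at r1; linarith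
    · have := mul_pos l4 p0; have := mul_pos l0 p2; linarith
    · rw [p2, p4] at r2; linarith
    · have := mul_pos l4 p4; have := mul_pos l0 p2; linarith
    · have := mul_pos (show 0 < t4 + t2 by linarith) e1
      have : t4 * (B + 2 * D) = 0 := by rw [p5, mul_zero]
      linarith
    · have := mul_pos (show 0 < t4 by linarith) p5
      subst e1; linarith
    · have := mul_pos (show 0 < t3 + t2 - 2 * t1 by linarith) e1
      have : (t3 - t1) * (B + 2 * D) = 0 := by rw [p5, mul_zero]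
      linarith
    · have := mul_pos (show 0 < t3 - t1 by linarith) p5
      subst e1; linarith
    · have := mul_pos l4 p4
      rw [p0] at r1; linarith
    · have := mul_pos l4 p0
      rw [p4] at r2; linarith
    · have := mul_pos (show 0 < t3 - t2 by linarith) e1
      have := mul_pos l4 e0
      have : (t3 - t2) * (B + 2 * D) = 0 := by rw [p5, mul_zero]
      linarith
    · have := mul_pos (show 0 < t3 - t2 by linarith) p1
      have := mul_pos (show 0 < t2 - t1 by linarith) p3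
      have := mul_pos (show 0 < t3 - t1 by linarith) (add_pos (mul_pos l4 e0) e2)
      have : (t3 - t1) * (A + t2 * B + C + E) = 0 := by rw [p2, mul_zero]
      subst e1; linarith

set_option synthInstance.maxSize 2000 in
theorem adapter_cell {t1 t2 t3 t4 : ℝ} (h1 : 0 < t1) (h2 : t1 < t2) (h3 : t2 < t3) (h4 : t3 < t4)
    {y : Lb → Fin 5 → ℝ} (hc : Corners y)
    (y0 : y (2, 0) = ![1, 0, 1, 0, 0]) (y1 : y (2, 1) = ![1, t1, 0, 0, 0])
    (y2 : y (2, 2) = ![1, t2, 1, 0, t2 - t1])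
    (y3 : y (2, 3) = ![1, t3, 0, t3 - t2, t3 - t1 + (t3 - t2)])
    (y4 : y (2, 4) = ![1, t4, 1, t4 - t2, t4 - t1 + (t4 - t2) + (t4 - t3)])
    (y5 : y (2, 5) = ![0, 1, 0, 2, 4]) :
    Vx (lab0 6) y ∧ ∀ a b, adj0 6 (fun _ _ => True) chA a b ↔ Ed (lab0 6) y a b := by
  obtain ⟨c0, c1, c2⟩ := hc
  obtain ⟨a, ha, rfl⟩ : ∃ a, 0 < a ∧ t2 = t1 + a := ⟨t2 - t1, by linarith, by ring⟩
  obtain ⟨b, hb, rfl⟩ : ∃ b, 0 < b ∧ t3 = t1 + a + b := ⟨t3 - t1 - a, by linarith, by ring⟩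
  obtain ⟨c, hc, rfl⟩ : ∃ c, 0 < c ∧ t4 = t1 + a + b + c :=
    ⟨t4 - t1 - a - b, by linarith, by ring⟩
  have m1 := mul_pos h1 ha
  have m2 := mul_pos h1 hb
  have m3 := mul_pos h1 hc
  have m4 := mul_pos ha ha
  have m5 := mul_pos ha hb
  have m6 := mul_pos ha hc
  have m7 := mul_pos hb hb
  have m8 := mul_pos hb hc
  refine cell [[(0, 0), (0, 1), (0, 2), (2, 0)], [(0, 0), (0, 1), (0, 2), (2, 5)],
      [(0, 1), (0, 2), (2, 0), (2, 1)], [(0, 1), (0, 2), (2, 1), (2, 3), (2, 5)],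
      [(0, 0), (0, 2), (2, 0), (2, 1), (2, 2)], [(0, 0), (0, 2), (2, 2), (2, 3), (2, 4)],
      [(0, 0), (0, 2), (2, 4), (2, 5)], [(0, 2), (2, 1), (2, 2), (2, 3)],
      [(0, 2), (2, 3), (2, 4), (2, 5)], [(0, 0), (0, 1), (2, 0), (2, 1)],
      [(0, 0), (0, 1), (2, 1), (2, 2)], [(0, 0), (0, 1), (2, 2), (2, 3)],
      [(0, 0), (0, 1), (2, 3), (2, 4)], [(0, 0), (0, 1), (2, 4), (2, 5)],
      [(0, 1), (2, 1), (2, 2), (2, 3)], [(0, 1), (2, 3), (2, 4), (2, 5)]]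
    [((2, 0), (2, 2)), ((2, 0), (2, 3)), ((2, 0), (2, 4)), ((2, 0), (2, 5)), ((2, 1), (2, 4)),
      ((2, 1), (2, 5)), ((2, 2), (2, 4)), ((2, 2), (2, 5))] ?_ ?_ (by decide +kernel)
    (by decide +kernel) (by simp only [adj0, chA, mem9]; decide +kernel)
  · simp only [List.forall_mem_cons]
    refine ⟨facet 0 1 0 0 0 _ ?_, facet 1 0 0 0 0 _ ?_, facet (-t1) 1 t1 0 0 _ ?_,
      facet 0 0 1 0 0 _ ?_, facet 0 0 0 1 0 _ ?_, facet (t1 + a) (-1) 0 1 0 _ ?_,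
      facet (2 * t1 + 2 * a + b + c) (-2) 0 1 0 _ ?_,
      facet (t1 * b) (-b) (a * b) (a + b) 0 _ ?_,
      facet (2 * t1 + 2 * a + b) (-2) c 1 0 _ ?_, facet 0 0 0 0 1 _ ?_,
      facet t1 (-1) 0 0 1 _ ?_, facet (2 * t1 + a) (-2) 0 0 1 _ ?_,
      facet (3 * t1 + 2 * a + b) (-3) 0 0 1 _ ?_, facet (4 * t1 + 3 * a + 2 * b + c) (-4) 0 0 1 _ ?_,
      facet ((a + 2 * b) * t1) (-(a + 2 * b)) (a * b) 0 (a + b) _ ?_,
      facet (4 * t1 + 3 * a + 2 * b) (-4) c 0 1 _ ?_, by simp⟩ <;>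
    simp [L9, c0, c1, c2, y0, y1, y2, y3, y4, y5] <;> (repeat' apply And.intro) <;> linarith
  · simp only [List.forall_mem_cons]
    refine ⟨fun g => ?_, fun g => ?_, fun g => ?_, fun g => ?_, fun g => ?_, fun g => ?_,
      fun g => ?_, fun g => ?_, by simp⟩ <;>
    obtain ⟨φ, g⟩ := non_edge g <;> obtain ⟨A, B, C, D, E, hφ⟩ := lin_apply φ <;>
    simp [L9, c0, c1, c2, y0, y1, y2, y3, y4, y5, hφ] at g <;>
    obtain ⟨e0, e1, e2, p0, p1, p2, p3, p4, p5⟩ := g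
    · linarith [congrArg (a * ·) p0, congrArg (t1 * ·) p2, mul_pos (add_pos h1 ha) p1,
        mul_pos (add_pos h1 ha) e0, mul_pos m1 e2]
    · linarith [congrArg ((a + b) * ·) p0, congrArg (t1 * ·) p3, mul_pos (h1.trans (h2.trans h3)) p1,
        mul_pos (add_pos ha hb) e0, mul_pos m1 e2, mul_pos m2 e2, mul_pos m2 e1]
    · linarith [congrArg ((a + b + c) * ·) p0, congrArg (t1 * ·) p4,
        mul_pos (h1.trans (h2.trans (h3.trans h4))) p1,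
        mul_pos (h1.trans (h2.trans (h3.trans h4))) e0, mul_pos m1 e2, mul_pos m2 e2,
        mul_pos m3 e2, mul_pos m2 e1, mul_pos m3 e1]
    · linarith [congrArg (t1 * ·) p5, mul_pos h1 e1, mul_pos h1 e2]
    · linarith [congrArg (c * ·) p1, congrArg ((a + b) * ·) p4,
        mul_pos (add_pos (add_pos ha hb) hc) p3, mul_pos (add_pos ha hb) e0, mul_pos m6 e1,
        mul_pos m6 e2, mul_pos m8 e2]
    · linarith [congrArg ((a + b) * ·) p5, mul_pos ha e1, mul_pos hb e1, mul_pos ha e2,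
        mul_pos hb e2]
    · linarith [congrArg (c * ·) p2, congrArg (b * ·) p4, mul_pos (add_pos hb hc) p3,
        mul_pos (add_pos hb hc) e0, mul_pos m8 e2]
    · linarith [congrArg (b * ·) p5, mul_pos hb e1, mul_pos hb e2]

end Pool.Agent.MP_26cd3b_lc.H80
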